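import Pool.Agent.ZGO.StmtsA

/-!
Squad ZGO, row CHM: facts on characters.
-/

set_option autoImplicit false

namespace Pool.Agent.ZGO.H47

variable {P : Type} [Group P] {d : ℕ} {ψ : P →* P} {N A B : ℕ → Subgroup P}

theorem anti_of_step {F : ℕ → Subgroup P} (h : ∀ M, F (M + 1) ≤ F M) {M M' : ℕ} (hM : M ≤ M') :
    F M' ≤ F M := by
  induction hM with
  | refl => exact le_rfl
  | step _ ih => exact (h _).trans ih

theorem iter_mul (ψ : P →* P) (n : ℕ) (x y : P) :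
    (⇑ψ)^[n] (x * y) = (⇑ψ)^[n] x * (⇑ψ)^[n] y := by
  rw [← itr_apply, ← itr_apply, ← itr_apply, map_mul]

theorem iter_inv (ψ : P →* P) (n : ℕ) (x : P) : (⇑ψ)^[n] x⁻¹ = ((⇑ψ)^[n] x)⁻¹ := by
  rw [← itr_apply, ← itr_apply, map_inv]

theorem iter_mem {F : Subgroup P} (h : ∀ g ∈ F, ψ g ∈ F) (n : ℕ) :
    ∀ g ∈ F, (⇑ψ)^[n] g ∈ F := by
  induction n with
  | zero => exact fun g hg => hg
  | succ n ih =>
    intro g hg
    rw [Function.iterate_succ_apply]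
    exact ih _ (h g hg)

theorem chr_mono (hL : Lev d ψ N A B) (M M' : ℕ) (h : M ≤ M') :
    Chr (A M) (B M) ≤ Chr (A M') (B M') := by
  intro f hf
  exact ⟨fun a ha b hb => hf.1 a (anti_of_step hL.aan h ha) b (anti_of_step hL.aan h hb),
    fun g b hb => hf.2 g b (anti_of_step hL.ban h hb)⟩

theorem mem_Xs (hL : Lev d ψ N A B) (f : P → QZ) :
    f ∈ Xs A B ↔ ∃ M, f ∈ Chr (A M) (B M) := by
  apply AddSubgroup.mem_iSup_of_directed
  intro M M'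
  exact ⟨max M M', chr_mono hL _ _ (le_max_left _ _), chr_mono hL _ _ (le_max_right _ _)⟩

theorem chr_one {M : ℕ} {f : P → QZ} (hf : f ∈ Chr (A M) (B M)) :
    f 1 = 0 ∧ ∀ b ∈ B M, f b = 0 := by
  have h1 : f 1 = 0 := by
    have h := hf.1 1 (A M).one_mem 1 (A M).one_mem
    rw [mul_one] at h
    exact left_eq_add.1 h
  refine ⟨h1, fun b hb => ?_⟩
  have h := hf.2 1 b hb
  rw [one_mul] at h
  rw [h, h1]

theorem iter_fac (hL : Lev d ψ N A B) (M n : ℕ) :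
    ∀ l ∈ B M, ∃ l' ∈ B M, ∃ k ∈ N M, l = (⇑ψ)^[n] l' * k := by
  induction n with
  | zero => exact fun l hl => ⟨l, hl, 1, (N M).one_mem, by simp⟩
  | succ n ih =>
    intro l hl
    obtain ⟨l', hl', k, hk, e⟩ := ih l hl
    obtain ⟨b, hb, hm⟩ := hL.bac M l' hl'
    refine ⟨b, hb, ((⇑ψ)^[n] (l'⁻¹ * ψ b))⁻¹ * k,
      (N M).mul_mem ((N M).inv_mem (iter_mem (hL.nps M) n _ hm)) hk, ?_⟩
    rw [e, Function.iterate_succ_apply, iter_mul, iter_inv]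
    group

theorem chm : ChmStmt := by
  intro P _ d ψ N A B hL
  refine ⟨chr_mono hL, mem_Xs hL, fun M f hf => chr_one hf, ?_, ?_, ?_, ?_, ?_⟩
  · intro M f hf
    refine ⟨fun a ha b hb => ?_, fun g b hb => ?_⟩
    · show f (ψ (a * b)) = f (ψ a) + f (ψ b)
      rw [map_mul]
      exact hf.1 _ (hL.aps M a ha) _ (hL.aps M b hb)
    · show f (ψ (g * b)) = f (ψ g)
      rw [map_mul]
      exact hf.2 _ _ (hL.bps M b hb)
  · intro M f hf g
    obtain ⟨c, hc, l, hl, e⟩ := hL.mul M g⁻¹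
    have hnc := hL.anr M
    have key : ∀ a ∈ A M, f (g⁻¹ * a) - f g⁻¹ = f (l * a * l⁻¹) := by
      intro a ha
      have h1 : g⁻¹ * a = c * (l * a * l⁻¹) * l := by
        rw [e]
        group
      rw [h1, hf.2 _ l hl, hf.1 c hc _ (hnc.conj_mem a ha l), e, hf.2 c l hl]
      abel
    refine ⟨fun a ha b hb => ?_, fun x b hb => ?_⟩
    · show f (g⁻¹ * (a * b)) - f g⁻¹ = (f (g⁻¹ * a) - f g⁻¹) + (f (g⁻¹ * b) - f g⁻¹)
      rw [key a ha, key b hb, key (a * b) ((A M).mul_mem ha hb)]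
      have h1 : l * (a * b) * l⁻¹ = (l * a * l⁻¹) * (l * b * l⁻¹) := by group
      rw [h1]
      exact hf.1 _ (hnc.conj_mem a ha l) _ (hnc.conj_mem b hb l)
    · show f (g⁻¹ * (x * b)) - f g⁻¹ = f (g⁻¹ * x) - f g⁻¹
      rw [← mul_assoc, hf.2 _ b hb]
  · intro M f hf n hn g x
    obtain ⟨c, hc, l, hl, e⟩ := hL.mul M g⁻¹
    obtain ⟨l', hl', k, hk, e'⟩ := iter_fac hL M n l hl
    obtain ⟨a, ha, b, hb, e''⟩ := hL.mul M (l' * x)
    have h1 : g⁻¹ * (⇑ψ)^[n] x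
        = c * (⇑ψ)^[n] a * (⇑ψ)^[n] b * (((⇑ψ)^[n] x)⁻¹ * k * (⇑ψ)^[n] x) := by
      have h2 : (⇑ψ)^[n] l' * (⇑ψ)^[n] x = (⇑ψ)^[n] a * (⇑ψ)^[n] b := by
        rw [← iter_mul, ← iter_mul, e'']
      calc g⁻¹ * (⇑ψ)^[n] x = c * ((⇑ψ)^[n] l' * k) * (⇑ψ)^[n] x := by rw [e, ← e']
        _ = c * ((⇑ψ)^[n] l' * (⇑ψ)^[n] x) * (((⇑ψ)^[n] x)⁻¹ * k * (⇑ψ)^[n] x) := by group
        _ = _ := by rw [h2]; group
    have hk' : ((⇑ψ)^[n] x)⁻¹ * k * (⇑ψ)^[n] x ∈ B M := by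
      apply hL.nb M
      have := (hL.nrm M).conj_mem k hk ((⇑ψ)^[n] x)⁻¹
      rwa [inv_inv] at this
    rw [h1, hf.2 _ _ hk', hf.2 _ _ (iter_mem (hL.bps M) n b hb),
      hf.1 c hc _ (iter_mem (hL.aps M) n a ha), hn a, e, hf.2 c l hl]
    abel
  · intro M f hf
    obtain ⟨n, hn⟩ := hL.nil M
    refine ⟨n, fun x => ?_⟩
    obtain ⟨a, ha, b, hb, e⟩ := hL.mul M x
    rw [e, iter_mul, hf.2 _ _ (iter_mem (hL.bps M) n b hb)]
    exact (chr_one hf).2 _ (hL.nb M (hn a ha))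
  · intro f hfX
    obtain ⟨M, hf⟩ := (mem_Xs hL f).1 hfX
    have hval : ∀ x, ∃ a ∈ A M, f x = f a := by
      intro x
      obtain ⟨a, ha, b, hb, e⟩ := hL.mul M x
      exact ⟨a, ha, by rw [e, hf.2 a b hb]⟩
    have hadd : ∀ u v : QZ, (∃ x, f x = u) → (∃ x, f x = v) → ∃ x, f x = u + v := by
      rintro u v ⟨x, rfl⟩ ⟨y, rfl⟩
      obtain ⟨a, ha, ea⟩ := hval x
      obtain ⟨b, hb, eb⟩ := hval y
      exact ⟨a * b, by rw [hf.1 a ha b hb, ea, eb]⟩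
    have hneg : ∀ u : QZ, (∃ x, f x = u) → ∃ x, f x = -u := by
      rintro u ⟨x, rfl⟩
      obtain ⟨a, ha, ea⟩ := hval x
      refine ⟨a⁻¹, ?_⟩
      have h := hf.1 a ha a⁻¹ ((A M).inv_mem ha)
      rw [mul_inv_cancel, (chr_one hf).1] at h
      rw [ea]
      exact (neg_eq_of_add_eq_zero_right h.symm).symm
    exact ⟨{ carrier := {u | ∃ x, f x = u}
             zero_mem' := ⟨1, (chr_one hf).1⟩
             add_mem' := fun {u v} hu hv => hadd u v hu hv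
             neg_mem' := fun {u} hu => hneg u hu }, fun u => Iff.rfl⟩

end Pool.Agent.ZGO.H47
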